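import Pool.Agent.Helper36.Pin.Defs2
import Pool.Agent.Helper5.Pin.A
import Pool.Agent.Helper37.Pin.ModB

namespace Pool.Agent.Helper36.Pin

open Finset Module

variable {V : Type} [Fintype V] [DecidableEq V]

private theorem rowE_mk' (p : V → Fin 2 → ℚ) (v w : V) : rowE p s(v, w) = row p v w := by
  have h1 : s((Quot.out s(v, w)).1, (Quot.out s(v, w)).2) = s(v, w) := Quot.out_eq _
  unfold rowE
  rcases Sym2.eq_iff.1 h1 with ⟨h2, h3⟩ | ⟨h2, h3⟩
  · rw [h2, h3]
  · rw [h2, h3]
    funext u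
    unfold row
    ring

open Classical in
/-- elements of the span of the rows at `v` are explicit combinations of these rows -/
theorem exists_coeff (G : SimpleGraph V) (p : V → Fin 2 → ℚ) (v : V) (x : V × Fin 2 → ℚ)
    (hx : x ∈ Submodule.span ℚ (rowE p '' (inc G {v} : Set (Sym2 V)))) :
    ∃ c : V → ℚ, ∑ w ∈ Finset.univ.filter (fun w => G.Adj v w), c w • row p v w = x := by
  have h : x ∈ Submodule.span ℚ ((fun w => row p v w) ''
      ((Finset.univ.filter (fun w => G.Adj v w) : Finset V) : Set V)) := by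
    refine Submodule.span_mono ?_ hx
    rintro _ ⟨e, he, rfl⟩
    induction e using Sym2.ind with
    | _ a b =>
      have he' := mem_inc_mk.1 (Finset.mem_coe.1 he)
      rcases he' with ⟨hab, ha | hb⟩
      · have ha' : a = v := Finset.mem_singleton.1 ha
        subst ha'
        exact ⟨b, by simpa using hab, (rowE_mk' p a b).symm⟩
      · have hb' : b = v := Finset.mem_singleton.1 hb
        subst hb'
        refine ⟨a, by simpa using hab.symm, ?_⟩
        rw [Sym2.eq_swap]
        exact (rowE_mk' p b a).symm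
  obtain ⟨c, hc⟩ := (Submodule.mem_span_image_finset_iff_exists_fun ℚ).1 h
  refine ⟨fun w => if hw : w ∈ Finset.univ.filter (fun w => G.Adj v w) then c ⟨w, hw⟩ else 0, ?_⟩
  rw [← hc, ← Finset.sum_attach (Finset.univ.filter (fun w => G.Adj v w))]
  rw [Finset.univ_eq_attach]
  refine Finset.sum_congr rfl fun w _ => ?_
  show (if hw : (w : V) ∈ Finset.univ.filter (fun w => G.Adj v w) then c ⟨w, hw⟩ else 0) •
    row p v w = c w • row p v w
  rw [dif_pos w.2]

/-- The lower bound, given a generic framework (`hgen` is `exists_generic_rk`, module C3). -/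
theorem T_lower_of (hgen : ∃ p : V → Fin 2 → ℚ, ∀ F : Finset (Sym2 V),
      finrank ℚ (Submodule.span ℚ (rowE p '' (F : Set (Sym2 V)))) = rk F)
    (G : SimpleGraph V) (U Z : Finset V) (hZU : Z ⊆ U) (hZ : FeasA G Z) :
    ∃ ω : Var V → ℚ, 2 * Z.card ≤ (T G U ω).rank := by
  classical
  obtain ⟨p, hp⟩ := hgen
  let A : V × Fin 2 → Submodule ℚ (V × Fin 2 → ℚ) := fun x =>
    Submodule.span ℚ (rowE p '' (inc G {x.1} : Set (Sym2 V)))
  have hA : ∀ J ⊆ Z ×ˢ (univ : Finset (Fin 2)), J.Nonempty →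
      J.card + 1 ≤ finrank ℚ (J.sup A : Submodule ℚ (V × Fin 2 → ℚ)) := by
    intro J hJ hJn
    have h1 : Submodule.span ℚ (rowE p '' (inc G (J.image Prod.fst) : Set (Sym2 V))) ≤ J.sup A := by
      rw [Submodule.span_le]
      rintro _ ⟨e, he, rfl⟩
      obtain ⟨he1, v, hv, hve⟩ := mem_inc.1 (Finset.mem_coe.1 he)
      obtain ⟨x, hx, rfl⟩ := Finset.mem_image.1 hv
      have h2 : A x ≤ J.sup A := Finset.le_sup hx
      refine h2 (Submodule.subset_span ⟨e, ?_, rfl⟩)
      exact Finset.mem_coe.2 (mem_inc.2 ⟨he1, x.1, Finset.mem_singleton_self _, hve⟩)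
    have h3 := Submodule.finrank_mono h1
    rw [hp] at h3
    have hsub : J.image Prod.fst ⊆ Z := by
      intro v hv
      obtain ⟨x, hx, rfl⟩ := Finset.mem_image.1 hv
      exact (Finset.mem_product.1 (hJ hx)).1
    have h4 := hZ (J.image Prod.fst) hsub (hJn.image _)
    have h5 : J.card ≤ 2 * (J.image Prod.fst).card := by
      have : J ⊆ (J.image Prod.fst) ×ˢ (univ : Finset (Fin 2)) := by
        intro x hx
        exact Finset.mem_product.2 ⟨Finset.mem_image_of_mem _ hx, Finset.mem_univ _⟩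
      have := Finset.card_le_card this
      rw [Finset.card_product, Finset.card_univ, Fintype.card_fin] at this
      omega
    omega
  obtain ⟨h, y, hy, hli, hvs⟩ := dilworth A (Z ×ˢ (univ : Finset (Fin 2))) hA
    (((univ : Finset (Sym2 V)).image (rowE p)).filter (fun r => r ≠ 0)) (by
      intro v hv
      exact (Finset.mem_filter.1 hv).2)
  -- a vector of `A v` with value one
  have hb : ∀ v : V, ∃ b : V × Fin 2 → ℚ, v ∈ Z →
      b ∈ Submodule.span ℚ (rowE p '' (inc G {v} : Set (Sym2 V))) ∧ h b = 1 := by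
    intro v
    by_cases hv : v ∈ Z
    · have h1 := hZ {v} (Finset.singleton_subset_iff.2 hv) (Finset.singleton_nonempty v)
      rw [← hp] at h1
      have h2 : ∃ e ∈ inc G {v}, rowE p e ≠ 0 := by
        by_contra hcon
        push Not at hcon
        have : Submodule.span ℚ (rowE p '' (inc G {v} : Set (Sym2 V))) = ⊥ := by
          rw [Submodule.span_eq_bot]
          rintro _ ⟨e, he, rfl⟩
          exact hcon e he
        rw [this] at h1
        simp at h1
      obtain ⟨e, he, hne⟩ := h2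
      have h3 : h (rowE p e) ≠ 0 := hvs _ (Finset.mem_filter.2
        ⟨Finset.mem_image_of_mem _ (Finset.mem_univ e), hne⟩)
      refine ⟨(h (rowE p e))⁻¹ • rowE p e, fun _ => ⟨?_, ?_⟩⟩
      · exact Submodule.smul_mem _ _ (Submodule.subset_span ⟨e, he, rfl⟩)
      · rw [map_smul, smul_eq_mul, inv_mul_cancel₀ h3]
    · exact ⟨0, fun h => absurd h hv⟩
  choose b hb using hb
  have hc0 : ∀ (v : V) (j : Fin 2), ∃ c : V → ℚ, v ∈ Z →
      ∑ w ∈ Finset.univ.filter (fun w => G.Adj v w), c w • row p v w = y (v, j) := by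
    intro v j
    by_cases hv : v ∈ Z
    · obtain ⟨c, hc⟩ := exists_coeff G p v (y (v, j))
        (hy (v, j) (Finset.mem_product.2 ⟨hv, Finset.mem_univ _⟩)).1
      exact ⟨c, fun _ => hc⟩
    · exact ⟨0, fun h => absurd h hv⟩
  choose c0 hc0 using hc0
  have hc1 : ∀ (v : V), ∃ c : V → ℚ, v ∈ Z →
      ∑ w ∈ Finset.univ.filter (fun w => G.Adj v w), c w • row p v w = b v := by
    intro v
    by_cases hv : v ∈ Z
    · obtain ⟨c, hc⟩ := exists_coeff G p v (b v) (hb v hv).1
      exact ⟨c, fun _ => hc⟩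
    · exact ⟨0, fun h => absurd h hv⟩
  choose c1 hc1 using hc1
  let ω : Var V → ℚ := fun z =>
    match z with
    | Sum.inl (v, i) => p v i
    | Sum.inr (Sum.inl u) => h (Pi.single u 1)
    | Sum.inr (Sum.inr (v, j, k, w)) => if v ∈ Z then (if k = 0 then c0 v j w else c1 v w) else 0
  have hpt : pt ω = p := rfl
  have hfn : ∀ x : V × Fin 2 → ℚ, fn ω x = h x := by
    intro x
    rw [LinearMap.pi_apply_eq_sum_univ h x]
    unfold fn
    refine Finset.sum_congr rfl fun u _ => ?_
    have : (fun j => if u = j then (1 : ℚ) else 0) = Pi.single u 1 := by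
      ext j
      by_cases hj : u = j
      · subst hj; simp
      · simp [hj, Pi.single_apply, Ne.symm hj, eq_comm]
    simp only [ω]
    rw [this, smul_eq_mul, mul_comm]
  have hbv0 : ∀ v ∈ Z, ∀ j, bv G ω v j 0 = y (v, j) := by
    intro v hv j
    rw [← hc0 v j hv]
    unfold bv
    rw [hpt]
    refine Finset.sum_congr ?_ fun w _ => ?_
    · ext w; simp
    · simp [ω, hv]
  have hbv1 : ∀ v ∈ Z, ∀ j, bv G ω v j 1 = b v := by
    intro v hv j
    rw [← hc1 v hv]
    unfold bv
    rw [hpt]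
    refine Finset.sum_congr ?_ fun w _ => ?_
    · ext w; simp
    · simp [ω, hv]
  have hbvn : ∀ v ∉ Z, ∀ j k, bv G ω v j k = 0 := by
    intro v hv j k
    unfold bv
    refine Finset.sum_eq_zero fun w _ => ?_
    simp [ω, hv]
  have hyv : ∀ v ∈ Z, ∀ j, yv G ω v j = y (v, j) := by
    intro v hv j
    unfold yv
    rw [hbv0 v hv, hbv1 v hv, hfn, hfn, (hb v hv).2,
      (hy (v, j) (Finset.mem_product.2 ⟨hv, Finset.mem_univ _⟩)).2]
    simp
  have hyvn : ∀ v ∉ Z, ∀ j, yv G ω v j = 0 := by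
    intro v hv j
    unfold yv
    rw [hbvn v hv, hbvn v hv]
    simp
  have hT : T G U ω = ∑ v ∈ Z, (Matrix.vecMulVec (yv G ω v 0) (yv G ω v 1) -
        Matrix.vecMulVec (yv G ω v 1) (yv G ω v 0)) := by
    unfold T
    symm
    refine Finset.sum_subset hZU ?_
    intro v _ hv
    rw [hyvn v hv, hyvn v hv]
    simp
  refine ⟨ω, ?_⟩
  rw [hT]
  have hli2 : LinearIndependent ℚ (fun i : Z × Fin 2 => yv G ω i.1 i.2) := by
    have h1 : (fun i : Z × Fin 2 => yv G ω i.1 i.2) =
        (fun i : ((Z ×ˢ (univ : Finset (Fin 2)) : Finset (V × Fin 2))) => y i) ∘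
          (fun i : Z × Fin 2 => ⟨((i.1 : V), i.2),
            Finset.mem_product.2 ⟨i.1.2, Finset.mem_univ _⟩⟩) := by
      ext1 i
      exact hyv i.1 i.1.2 i.2
    rw [h1]
    refine hli.comp _ ?_
    intro i i' hii
    have h2 : ((i.1 : V), i.2) = ((i'.1 : V), i'.2) := congrArg Subtype.val hii
    rw [Prod.mk.injEq] at h2
    exact Prod.ext (Subtype.ext h2.1) h2.2
  exact (parity_lower Z (fun v j => yv G ω v j) hli2).ge

end Pool.Agent.Helper36.Pin
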